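import Pool.Agent.Q121.EM.Dri

/-!
Project FD (helper86), job DIN: several base coordinates.
-/

set_option autoImplicit false

namespace Pool.Agent.Q238.EM

open MeasureTheory Set Filter Topology
open scoped ENNReal InnerProductSpace ContDiff
open Pool.Agent.H888R2.KT (LC)
open Pool.Agent.Q86.FIB (EK)
open Pool.Agent.Q86.EM
open Pool.Agent.Q121.EM (LC_E CVd_E PId_E)
open Pool.Agent.Q275.EM (rx rx_apply ix ix_symm_zero ix_symm_succ ix_symm_inr pt_inl pt_inr pm_inl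
  pm_inr)

theorem KLSd_E {κ κ' : Type} [Fintype κ] [Fintype κ'] (E : Eu κ ≃ₗᵢ[ℝ] Eu κ') {ρ : Eu κ' → ℝ}
    {k : ℝ} (hk : KLSd (fun x => ρ (E x)) k) : KLSd ρ k :=
  fun s hs => PId_E E (hk s (CVd_E E hs))

theorem din (h1 : S_DON) : S_DIN := by
  obtain ⟨C, hC1, hC⟩ := h1
  refine ⟨C, hC1, fun m => ?_⟩
  induction m with
  | zero =>
    intro n ρ hρ k hk hs
    rw [pow_zero, one_mul]
    obtain ⟨E, hE⟩ : ∃ E : Eu (Fin n) ≃ₗᵢ[ℝ] Eu (Fin 0 ⊕ Fin n),
        E = rx (Equiv.emptySum (Fin 0) (Fin n)).symm := ⟨_, rfl⟩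
    have h2 : (fun z : Eu (Fin n) => ρ (pm 0 n 0 z)) = fun z => ρ (E z) := by
      funext z
      congr 1
      ext i
      rcases i with i | i
      · exact i.elim0
      · rw [hE]
        rfl
    have h3 := hs 0
    rw [h2] at h3
    exact KLSd_E E (h3 (LC_E E hρ))
  | succ m ih =>
    intro n ρ hρ k hk hs
    obtain ⟨E, hE⟩ : ∃ E : EK 1 (m + n) ≃ₗᵢ[ℝ] Eu (Fin (m + 1) ⊕ Fin n), E = rx (ix m n) := ⟨_, rfl⟩
    obtain ⟨E2, hE2⟩ : ∃ E2 : Eu (Fin m ⊕ Fin n) ≃ₗᵢ[ℝ] Eu (Fin (m + n)), E2 = rx finSumFinEquiv :=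
      ⟨_, rfl⟩
    have hCm : 1 ≤ C ^ m * k := by
      have := one_le_pow₀ (n := m) hC1
      nlinarith
    have key : ∀ (u : ℝ) (t : Eu (Fin m)) (z : Eu (Fin n)),
        E (pt (m + n) u (E2 (pm m n t z))) = pm (m + 1) n (WithLp.toLp 2 (Fin.cons u t)) z := by
      intro u t z
      ext i
      rcases i with i | i
      · refine Fin.cases ?_ (fun i => ?_) i
        · rw [hE, rx_apply, ix_symm_zero, pt_inl, pm_inl]
          rfl
        · rw [hE, rx_apply, ix_symm_succ, pt_inr, hE2, rx_apply, Equiv.symm_apply_apply, pm_inl, pm_inl]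
          rfl
      · rw [hE, rx_apply, ix_symm_inr, pt_inr, hE2, rx_apply, Equiv.symm_apply_apply, pm_inr, pm_inr]
    have h4 : ∀ u : ℝ, LC (fun z : Eu (Fin (m + n)) => ρ (E (pt (m + n) u z))) →
        KLSd (fun z : Eu (Fin (m + n)) => ρ (E (pt (m + n) u z))) (C ^ m * k) := by
      intro u hu
      refine KLSd_E E2 (ih n (fun y => ρ (E (pt (m + n) u (E2 y)))) (LC_E E2 hu) k hk ?_)
      intro t ht
      have h5 : (fun z : Eu (Fin n) => ρ (E (pt (m + n) u (E2 (pm m n t z))))) =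
          fun z => ρ (pm (m + 1) n (WithLp.toLp 2 (Fin.cons u t)) z) := by
        funext z
        rw [key]
      rw [h5] at ht ⊢
      exact hs _ ht
    have h6 := KLSd_E E (hC (m + n) (fun x => ρ (E x)) (LC_E E hρ) (C ^ m * k) hCm h4)
    rw [pow_succ, mul_comm (C ^ m) C, mul_assoc]
    exact h6

end Pool.Agent.Q238.EM
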